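import Pool.Agent.Q27.LT.Tree

/-!
# Project LT of helper27: contours of trees, first visits of children and adjacency (TREE3)
-/

set_option autoImplicit false

namespace Pool.Agent.Q285.LT

open Pool.Agent.Q27.LT

theorem isNil_iff (t : Tr) : t.isNil = false ↔ t.has [] := by
  cases t with
  | nil => simp [Tr.isNil, Tr.has]
  | nd c => simp [Tr.isNil, Tr.has]

theorem pc_nil {c : D → Tr} {s : D} (acc : List D) (h : (c s).isNil = true) : pc c acc s = [] := by
  unfold pc
  rw [if_pos h]

theorem pc_cons {c : D → Tr} {s : D} (acc : List D) (h : (c s).isNil = false) :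
    pc c acc s = (acc, some s) :: vis (c s) (acc ++ [s]) (some (iv s)) := by
  unfold pc
  rw [if_neg (by rw [h]; exact Bool.false_ne_true)]

theorem vis_nd (c : D → Tr) (acc : List D) (b : Option D) : vis (.nd c) acc b =
    pc c acc (0, false) ++ (pc c acc (0, true) ++ (pc c acc (1, false) ++ (pc c acc (1, true) ++
      [(acc, b)]))) := by
  rw [vis]
  unfold pc
  simp only [List.append_assoc]

/-- the members of `pc` -/
theorem mem_pc (h2 : S_node) {c : D → Tr} {acc : List D} {s : D} {v : List D × Option D}
    (hv : v ∈ pc c acc s) : (c s).isNil = false ∧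
      (v = (acc, some s) ∨ ∃ π, v.1 = acc ++ s :: π) := by
  rcases h : (c s).isNil with _ | _
  · refine ⟨rfl, ?_⟩
    rw [pc_cons acc h, List.mem_cons] at hv
    rcases hv with hv | hv
    · exact Or.inl hv
    · obtain ⟨π, hπ, -⟩ := h2 _ _ _ _ hv
      exact Or.inr ⟨π, by rw [hπ, List.append_assoc]; rfl⟩
  · rw [pc_nil acc h] at hv
    cases hv

/-- the first visit -/
theorem first (t : Tr) (acc : List D) (b : Option D) (h : t.has []) :
    ∃ o B, vis t acc b = (acc, o) :: B ∧
      ((o = b ∧ ∀ c, ¬ t.has [c]) ∨ ∃ c, o = some c ∧ t.has [c]) := by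
  cases t with
  | nil => exact absurd h (by simp [Tr.has])
  | nd c =>
    rw [vis_nd]
    have key : ∀ (s : D) (L : List (List D × Option D)), (c s).isNil = false →
        ∃ o B, pc c acc s ++ L = (acc, o) :: B ∧
          ((o = b ∧ ∀ c', ¬ (Tr.nd c).has [c']) ∨ ∃ c', o = some c' ∧ (Tr.nd c).has [c']) := by
      intro s L hs
      rw [pc_cons acc hs]
      refine ⟨some s, _, rfl, Or.inr ⟨s, rfl, ?_⟩⟩
      exact (isNil_iff _).1 hs
    rcases h0 : (c (0, false)).isNil with _ | _
    · exact key _ _ h0
    · rw [pc_nil acc h0, List.nil_append]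
      rcases h1 : (c (0, true)).isNil with _ | _
      · exact key _ _ h1
      · rw [pc_nil acc h1, List.nil_append]
        rcases h2 : (c (1, false)).isNil with _ | _
        · exact key _ _ h2
        · rw [pc_nil acc h2, List.nil_append]
          rcases h3 : (c (1, true)).isNil with _ | _
          · exact key _ _ h3
          · rw [pc_nil acc h3, List.nil_append]
            refine ⟨b, [], rfl, Or.inl ⟨rfl, ?_⟩⟩
            intro d hd
            have hd' : (c d).isNil = false := (isNil_iff _).2 hd
            obtain ⟨i, e⟩ := d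
            fin_cases i <;> cases e <;> simp_all

theorem mem_lo {s t : D} (h : t ∈ lo s) : rk t < rk s := by
  unfold lo at h
  rw [List.mem_filter] at h
  exact of_decide_eq_true h.2

theorem s_child (h1 : S_cut) (h2 : S_node) : S_child := by
  intro t acc π
  induction π generalizing t acc with
  | nil =>
    intro b r h
    cases t with
    | nil => exact absurd h (by simp [Tr.has])
    | nd c =>
      have hr : (c r).has [] := h
      have hr' := (isNil_iff _).2 hr
      obtain ⟨o, B, hB, ho⟩ := first (c r) (acc ++ [r]) (some (iv r)) hr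
      refine ⟨(lo r).flatMap (pc c acc), B ++ (hi r).flatMap (pc c acc) ++ [(acc, b)], o, ?_, ?_, ?_⟩
      · rw [h1 c acc b r, pc_cons acc hr', hB]
        simp
      · intro v hv hv1
        rw [List.mem_flatMap] at hv
        obtain ⟨s, hs, hv⟩ := hv
        obtain ⟨hn, hv | ⟨π, hπ⟩⟩ := mem_pc h2 hv
        · refine ⟨s, by rw [hv], mem_lo hs, ?_⟩
          exact (isNil_iff _).1 hn
        · rw [hπ] at hv1
          have := congrArg List.length hv1
          simp at this
      · rcases ho with ⟨ho, ho'⟩ | ⟨c', ho, ho'⟩
        · exact Or.inl ⟨ho, fun c' hc' => ho' c' hc'⟩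
        · exact Or.inr ⟨c', ho, ho'⟩
  | cons s π ih =>
    intro b r h
    cases t with
    | nil => exact absurd h (by simp [Tr.has])
    | nd c =>
      have hr : (c s).has (π ++ [r]) := h
      have hs : (c s).isNil = false := by
        cases hc : c s with
        | nil => rw [hc] at hr; exact absurd hr (by simp [Tr.has])
        | nd c' => rfl
      obtain ⟨A, B, o, e1, e2, e3⟩ := ih (c s) (acc ++ [s]) (some (iv s)) r hr
      refine ⟨(lo s).flatMap (pc c acc) ++ (acc, some s) :: A,
        B ++ (hi s).flatMap (pc c acc) ++ [(acc, b)], o, ?_, ?_, ?_⟩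
      · rw [h1 c acc b s, pc_cons acc hs, e1]
        simp
      · intro v hv hv1
        rw [List.mem_append, List.mem_cons] at hv
        rcases hv with hv | hv | hv
        · rw [List.mem_flatMap] at hv
          obtain ⟨s', hs', hv⟩ := hv
          obtain ⟨hn, hv | ⟨π', hπ⟩⟩ := mem_pc h2 hv
          · rw [hv] at hv1
            have := congrArg List.length hv1
            simp at this
          · rw [hπ] at hv1
            have h3 := List.append_cancel_left hv1
            have h4 : s' = s := by
              injection h3
            have h5 := mem_lo hs'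
            rw [h4] at h5
            exact absurd h5 (lt_irrefl _)
        · rw [hv] at hv1
          have := congrArg List.length hv1
          simp at this
        · exact e2 v hv (by rw [hv1, List.append_assoc]; rfl)
      · rcases e3 with ⟨ho, ho'⟩ | ⟨c', ho, ho'⟩
        · exact Or.inl ⟨ho, fun c' hc' => ho' c' hc'⟩
        · exact Or.inr ⟨c', ho, ho'⟩

/-- the last visit -/
theorem last (t : Tr) (acc : List D) (b : Option D) (h : t.has []) :
    ∃ L, vis t acc b = L ++ [(acc, b)] := by
  cases t with
  | nil => exact absurd h (by simp [Tr.has])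
  | nd c =>
    rw [vis_nd]
    exact ⟨pc c acc (0, false) ++ (pc c acc (0, true) ++ (pc c acc (1, false) ++
      pc c acc (1, true))), by simp⟩

theorem s_chain : S_chain := by
  intro t
  induction t with
  | nil =>
    intro acc b
    rw [vis]
    exact List.isChain_nil
  | nd c ih =>
    intro acc b
    have key : ∀ (s : D) (L : List (List D × Option D)), List.IsChain Adj L →
        (∃ o B, L = (acc, o) :: B) → List.IsChain Adj (pc c acc s ++ L) ∧
          ∃ o B, pc c acc s ++ L = (acc, o) :: B := by
      intro s L hL hh
      rcases hs : (c s).isNil with _ | _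
      · obtain ⟨o', B', hB'⟩ := hh
        have hs' := (isNil_iff _).1 hs
        obtain ⟨o, B, hB, -⟩ := first (c s) (acc ++ [s]) (some (iv s)) hs'
        obtain ⟨L', hL'⟩ := last (c s) (acc ++ [s]) (some (iv s)) hs'
        rw [pc_cons acc hs]
        refine ⟨?_, some s, _, rfl⟩
        rw [List.isChain_append]
        refine ⟨?_, hL, ?_⟩
        · rw [hB, List.isChain_cons_cons, ← hB]
          exact ⟨Or.inl ⟨s, rfl, rfl⟩, ih s _ _⟩
        · intro v hv w hw
          rw [hB'] at hw
          rw [hL', ← List.cons_append, List.getLast?_append] at hv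
          simp at hv hw
          rw [← hv, ← hw]
          exact Or.inr (Or.inl ⟨s, rfl, rfl⟩)
      · rw [pc_nil acc hs, List.nil_append]
        exact ⟨hL, hh⟩
    rw [vis_nd]
    have k4 := key (1, true) [(acc, b)] (by simp) ⟨b, [], rfl⟩
    have k3 := key (1, false) _ k4.1 k4.2
    have k2 := key (0, true) _ k3.1 k3.2
    exact (key (0, false) _ k2.1 k2.2).1

end Pool.Agent.Q285.LT
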